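import Pool.Agent.Lib.MP_6bc78b_nt.MS.P2.Iface

/-! ABL: partial summation in one and two variables. -/

set_option autoImplicit false

open Finset

namespace Pool.Agent.Lib.MP_6bc78b_nt.MS.P2.H18

theorem abel1 (a b : ℕ) (F g : ℕ → ℂ) :
    ∑ x ∈ Ioc a b, F x * g x = (∑ y ∈ Ioc a b, F y) * g (b + 1) -
      ∑ x ∈ Ioc a b, (∑ y ∈ Ioc a x, F y) * (g (x + 1) - g x) := by
  rcases Nat.lt_or_ge b a with h | h
  · rw [Ioc_eq_empty_of_le h.le]; simp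
  · induction b, h using Nat.le_induction with
    | base => simp
    | succ n hn ih =>
      rw [sum_Ioc_succ_top (by omega), sum_Ioc_succ_top (by omega), sum_Ioc_succ_top (by omega),
        sum_Ioc_succ_top (by omega), ih]
      ring

theorem norm_sum_mul_le (s : Finset ℕ) (u : ℕ → ℂ) (v : ℕ → ℝ) :
    ‖∑ x ∈ s, u x * (v x : ℂ)‖ ≤ ∑ x ∈ s, ‖u x‖ * |v x| := by
  refine (norm_sum_le _ _).trans (le_of_eq (sum_congr rfl fun x _ => ?_))
  rw [norm_mul, Complex.norm_real, Real.norm_eq_abs]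

theorem abl : AblStatement := by
  refine ⟨fun a b F g => ?_, fun a b a' b' F G W => ?_⟩
  · have h := abel1 a b F (fun x => (g x : ℂ))
    have e : ∑ x ∈ Ioc a b, (∑ y ∈ Ioc a x, F y) * ((g (x + 1) : ℂ) - (g x : ℂ)) =
        ∑ x ∈ Ioc a b, (∑ y ∈ Ioc a x, F y) * ((g (x + 1) - g x : ℝ) : ℂ) :=
      sum_congr rfl fun x _ => by push_cast; ring
    rw [e] at h
    rw [h]
    refine (norm_sub_le _ _).trans (add_le_add (le_of_eq ?_) (norm_sum_mul_le _ _ _))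
    rw [norm_mul, Complex.norm_real, Real.norm_eq_abs]
  · have e0 : ∑ x ∈ Ioc a b, ∑ z ∈ Ioc a' b', F x * G z * (W x z : ℂ) =
        ∑ x ∈ Ioc a b, F x * ((∑ z ∈ Ioc a' b', G z) * (W x (b' + 1) : ℂ) -
          ∑ z ∈ Ioc a' b', (∑ y ∈ Ioc a' z, G y) * ((W x (z + 1) : ℂ) - (W x z : ℂ))) := by
      refine sum_congr rfl fun x _ => ?_
      rw [← abel1 a' b' G (fun z => (W x z : ℂ)), mul_sum]
      exact sum_congr rfl fun z _ => by ring
    have e1 : ∑ x ∈ Ioc a b, F x * ((∑ z ∈ Ioc a' b', G z) * (W x (b' + 1) : ℂ) -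
          ∑ z ∈ Ioc a' b', (∑ y ∈ Ioc a' z, G y) * ((W x (z + 1) : ℂ) - (W x z : ℂ))) =
        (∑ z ∈ Ioc a' b', G z) * ∑ x ∈ Ioc a b, F x * (W x (b' + 1) : ℂ) -
        ∑ z ∈ Ioc a' b', (∑ y ∈ Ioc a' z, G y) *
          ∑ x ∈ Ioc a b, F x * ((W x (z + 1) : ℂ) - (W x z : ℂ)) := by
      have ea : ∑ x ∈ Ioc a b, F x * ((∑ z ∈ Ioc a' b', G z) * (W x (b' + 1) : ℂ)) =
          (∑ z ∈ Ioc a' b', G z) * ∑ x ∈ Ioc a b, F x * (W x (b' + 1) : ℂ) := by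
        rw [mul_sum]
        exact sum_congr rfl fun x _ => by ring
      have eb : ∑ x ∈ Ioc a b, F x * ∑ z ∈ Ioc a' b', (∑ y ∈ Ioc a' z, G y) *
            ((W x (z + 1) : ℂ) - (W x z : ℂ)) =
          ∑ z ∈ Ioc a' b', (∑ y ∈ Ioc a' z, G y) *
            ∑ x ∈ Ioc a b, F x * ((W x (z + 1) : ℂ) - (W x z : ℂ)) := by
        have e5 : ∀ x ∈ Ioc a b, F x * ∑ z ∈ Ioc a' b', (∑ y ∈ Ioc a' z, G y) *
            ((W x (z + 1) : ℂ) - (W x z : ℂ)) = ∑ z ∈ Ioc a' b', F x * ((∑ y ∈ Ioc a' z, G y) *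
            ((W x (z + 1) : ℂ) - (W x z : ℂ))) := fun x _ => mul_sum _ _ _
        rw [sum_congr rfl e5, sum_comm]
        refine sum_congr rfl fun z _ => ?_
        rw [mul_sum]
        exact sum_congr rfl fun x _ => by ring
      rw [← ea, ← eb, ← sum_sub_distrib]
      exact sum_congr rfl fun x _ => by ring
    have e2 := abel1 a b F (fun x => (W x (b' + 1) : ℂ))
    have e3 : ∀ z, ∑ x ∈ Ioc a b, F x * ((W x (z + 1) : ℂ) - (W x z : ℂ)) =
        (∑ y ∈ Ioc a b, F y) * ((W (b + 1) (z + 1) - W (b + 1) z : ℝ) : ℂ) -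
        ∑ x ∈ Ioc a b, (∑ y ∈ Ioc a x, F y) *
          ((W (x + 1) (z + 1) - W (x + 1) z - W x (z + 1) + W x z : ℝ) : ℂ) := fun z => by
      rw [abel1 a b F (fun x => (W x (z + 1) : ℂ) - (W x z : ℂ))]
      push_cast
      congr 1
      exact sum_congr rfl fun x _ => by ring
    rw [e0, e1]
    have h1 : ‖(∑ z ∈ Ioc a' b', G z) * ∑ x ∈ Ioc a b, F x * (W x (b' + 1) : ℂ)‖ ≤
        ‖∑ y ∈ Ioc a b, F y‖ * ‖∑ y ∈ Ioc a' b', G y‖ * |W (b + 1) (b' + 1)| +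
        ∑ x ∈ Ioc a b, ‖∑ y ∈ Ioc a x, F y‖ * ‖∑ y ∈ Ioc a' b', G y‖ *
          |W (x + 1) (b' + 1) - W x (b' + 1)| := by
      rw [norm_mul, e2]
      have e4 : ∑ x ∈ Ioc a b, (∑ y ∈ Ioc a x, F y) *
          ((W (x + 1) (b' + 1) : ℂ) - (W x (b' + 1) : ℂ)) =
          ∑ x ∈ Ioc a b, (∑ y ∈ Ioc a x, F y) *
          ((W (x + 1) (b' + 1) - W x (b' + 1) : ℝ) : ℂ) :=
        sum_congr rfl fun x _ => by push_cast; ring
      rw [e4]
      refine (mul_le_mul_of_nonneg_left ((norm_sub_le _ _).trans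
        (add_le_add (le_of_eq (norm_mul _ _)) (norm_sum_mul_le _ _ _))) (norm_nonneg _)).trans
        (le_of_eq ?_)
      rw [Complex.norm_real, Real.norm_eq_abs, mul_add, mul_sum]
      congr 1
      · ring
      · exact sum_congr rfl fun x _ => by ring
    have h2 : ‖∑ z ∈ Ioc a' b', (∑ y ∈ Ioc a' z, G y) *
          ∑ x ∈ Ioc a b, F x * ((W x (z + 1) : ℂ) - (W x z : ℂ))‖ ≤
        ∑ z ∈ Ioc a' b', ‖∑ y ∈ Ioc a b, F y‖ * ‖∑ y ∈ Ioc a' z, G y‖ *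
          |W (b + 1) (z + 1) - W (b + 1) z| +
        ∑ x ∈ Ioc a b, ∑ z ∈ Ioc a' b', ‖∑ y ∈ Ioc a x, F y‖ * ‖∑ y ∈ Ioc a' z, G y‖ *
          |W (x + 1) (z + 1) - W (x + 1) z - W x (z + 1) + W x z| := by
      rw [sum_comm (s := Ioc a b), ← sum_add_distrib]
      refine (norm_sum_le _ _).trans (sum_le_sum fun z _ => ?_)
      rw [norm_mul, e3 z]
      refine (mul_le_mul_of_nonneg_left ((norm_sub_le _ _).trans
        (add_le_add (le_of_eq (norm_mul _ _)) (norm_sum_mul_le _ _ _))) (norm_nonneg _)).trans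
        (le_of_eq ?_)
      rw [Complex.norm_real, Real.norm_eq_abs, mul_add, mul_sum]
      congr 1
      · ring
      · exact sum_congr rfl fun x _ => by ring
    refine (norm_sub_le _ _).trans ((add_le_add h1 h2).trans (le_of_eq ?_))
    ring

end Pool.Agent.Lib.MP_6bc78b_nt.MS.P2.H18
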