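import Pool.Agent.Lib.MP_6bc78b_nt.MS.P2.Iface

/-! WTD: size and differences of the weight near `r = T`. -/

set_option autoImplicit false

open Finset Filter

namespace Pool.Agent.Lib.MP_6bc78b_nt.MS.P2.H18

theorem mvt1 {g g' : ℝ → ℝ} {a b B : ℝ} (h : ∀ u, HasDerivAt g (g' u) u)
    (hB : ∀ u ∈ Set.Icc a b, |g' u| ≤ B) {s t : ℝ} (hs : s ∈ Set.Icc a b)
    (ht : t ∈ Set.Icc a b) : |g t - g s| ≤ B * |t - s| := by
  have := Convex.norm_image_sub_le_of_norm_hasDerivWithin_le (f := g) (f' := g')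
    (s := Set.Icc a b) (C := B) (fun u _ => (h u).hasDerivWithinAt)
    (fun u hu => by rw [Real.norm_eq_abs]; exact hB u hu) (convex_Icc a b) hs ht
  rwa [Real.norm_eq_abs, Real.norm_eq_abs] at this

theorem mvt2 {g g' g'' : ℝ → ℝ} {a b B : ℝ} (h1 : ∀ u, HasDerivAt g (g' u) u)
    (h2 : ∀ u, HasDerivAt g' (g'' u) u) (hB : ∀ u ∈ Set.Icc a b, |g'' u| ≤ B)
    {u α β : ℝ} (hu : a ≤ u) (hα : 0 ≤ α) (hβ : 0 ≤ β) (hb : u + α + β ≤ b) :
    |g (u + α + β) - g (u + α) - g (u + β) + g u| ≤ B * (α * β) := by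
  have hd : ∀ t, HasDerivAt (fun t => g (t + β) - g t) (g' (t + β) - g' t) t := fun t => by
    have h3 : HasDerivAt (fun t => g (t + β)) (g' (t + β)) t := (h1 (t + β)).comp_add_const t β
    exact h3.sub (h1 t)
  have hB' : ∀ t ∈ Set.Icc u (u + α), |g' (t + β) - g' t| ≤ B * β := by
    intro t ht
    have h4 := mvt1 h2 hB (s := t) (t := t + β) ⟨hu.trans ht.1, by linarith [ht.2]⟩
      ⟨by linarith [ht.1], by linarith [ht.2]⟩
    rwa [add_sub_cancel_left, abs_of_nonneg hβ] at h4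
  have h5 := mvt1 hd hB' (s := u) (t := u + α) ⟨le_refl _, by linarith⟩ ⟨by linarith, le_refl _⟩
  rw [add_sub_cancel_left, abs_of_nonneg hα] at h5
  have e : g (u + α + β) - g (u + α) - g (u + β) + g u =
      g (u + α + β) - g (u + α) - (g (u + β) - g u) := by ring
  rw [e]
  refine h5.trans (le_of_eq ?_)
  ring

/-- the weight as a function of `u = log r` -/
noncomputable def gg (j : ℕ) (T u : ℝ) : ℝ :=
  u ^ j * Real.exp (-(2 * Real.pi * Real.exp u - T) ^ 2 / DD T ^ 2)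

noncomputable def g1 (j : ℕ) (T u : ℝ) : ℝ :=
  (j * u ^ (j - 1) + u ^ j * (-2 * (2 * Real.pi * Real.exp u) *
    (2 * Real.pi * Real.exp u - T) / DD T ^ 2)) *
      Real.exp (-(2 * Real.pi * Real.exp u - T) ^ 2 / DD T ^ 2)

noncomputable def g2 (j : ℕ) (T u : ℝ) : ℝ :=
  (j * ((j - 1 : ℕ) * u ^ (j - 1 - 1)) +
    (j * u ^ (j - 1) * (-2 * (2 * Real.pi * Real.exp u) *
    (2 * Real.pi * Real.exp u - T) / DD T ^ 2) +
    u ^ j * (-2 * (2 * Real.pi * Real.exp u) * (2 * (2 * Real.pi * Real.exp u) - T) /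
      DD T ^ 2))) * Real.exp (-(2 * Real.pi * Real.exp u - T) ^ 2 / DD T ^ 2) +
  (j * u ^ (j - 1) + u ^ j * (-2 * (2 * Real.pi * Real.exp u) *
    (2 * Real.pi * Real.exp u - T) / DD T ^ 2)) *
    (Real.exp (-(2 * Real.pi * Real.exp u - T) ^ 2 / DD T ^ 2) *
      (-2 * (2 * Real.pi * Real.exp u) * (2 * Real.pi * Real.exp u - T) / DD T ^ 2))

theorem hw (u : ℝ) : HasDerivAt (fun u : ℝ => 2 * Real.pi * Real.exp u)
    (2 * Real.pi * Real.exp u) u := (Real.hasDerivAt_exp u).const_mul _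

theorem hE (T u : ℝ) : HasDerivAt
    (fun u : ℝ => Real.exp (-(2 * Real.pi * Real.exp u - T) ^ 2 / DD T ^ 2))
    (Real.exp (-(2 * Real.pi * Real.exp u - T) ^ 2 / DD T ^ 2) *
      (-2 * (2 * Real.pi * Real.exp u) * (2 * Real.pi * Real.exp u - T) / DD T ^ 2)) u := by
  have h1 : HasDerivAt (fun u : ℝ => -(2 * Real.pi * Real.exp u - T) ^ 2 / DD T ^ 2)
      (-2 * (2 * Real.pi * Real.exp u) * (2 * Real.pi * Real.exp u - T) / DD T ^ 2) u := by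
    have h2 := ((((hw u).sub_const T).pow 2).neg).div_const (DD T ^ 2)
    refine h2.congr_deriv ?_
    push_cast
    ring
  exact h1.exp

theorem hg (j : ℕ) (T u : ℝ) : HasDerivAt (gg j T) (g1 j T u) u := by
  have h := (hasDerivAt_pow j u).mul (hE T u)
  refine h.congr_deriv ?_
  unfold g1
  ring

theorem hg' (j : ℕ) (T u : ℝ) : HasDerivAt (g1 j T) (g2 j T u) u := by
  have h3 : HasDerivAt (fun u : ℝ => -2 * (2 * Real.pi * Real.exp u) *
      (2 * Real.pi * Real.exp u - T) / DD T ^ 2) (-2 * (2 * Real.pi * Real.exp u) *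
      (2 * (2 * Real.pi * Real.exp u) - T) / DD T ^ 2) u := by
    have h2 := (((hw u).const_mul (-2)).mul ((hw u).sub_const T)).div_const (DD T ^ 2)
    refine h2.congr_deriv ?_
    ring
  have h4 : HasDerivAt (fun u : ℝ => (j : ℝ) * u ^ (j - 1))
      (j * ((j - 1 : ℕ) * u ^ (j - 1 - 1))) u := (hasDerivAt_pow (j - 1) u).const_mul (j : ℝ)
  have h5 := (h4.add ((hasDerivAt_pow j u).mul h3)).mul (hE T u)
  exact h5

theorem wt_exp (j : ℕ) (T : ℝ) {r : ℝ} (hr : 0 < r) : wt j T r = gg j T (Real.log r) := by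
  unfold wt gg GG
  rw [Real.exp_log hr]

/-- the final step of the estimate, as a statement on reals -/
theorem bnds0 {J R L E a0 a1 a2 p1 : ℝ} (hJ : 0 ≤ J) (hR : 0 ≤ R) (hE0 : 0 ≤ E) (hE1 : E ≤ 1)
    (hL2 : 1 ≤ L ^ 2) (hL24 : L ^ 2 ≤ L ^ 4) (h0 : |a0| ≤ R)
    (h1 : |a1| ≤ R * ((J + 10 ^ 8) * L ^ 2))
    (h2 : |a2| ≤ R * ((J ^ 2 + J * 10 ^ 8 + 2 * 10 ^ 8) * L ^ 2))
    (hp : |p1| ≤ 10 ^ 8 * L ^ 2) :
    |a0 * E| ≤ R * ((J + 2 * 10 ^ 8) ^ 2 * L ^ 4) ∧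
    |a1 * E| ≤ R * ((J + 2 * 10 ^ 8) ^ 2 * L ^ 4) ∧
    |a2 * E + a1 * (E * p1)| ≤ R * ((J + 2 * 10 ^ 8) ^ 2 * L ^ 4) := by
  have hJ1 : 1 ≤ (J + 2 * 10 ^ 8) ^ 2 := by nlinarith
  have hJ2 : J + 10 ^ 8 ≤ (J + 2 * 10 ^ 8) ^ 2 := by nlinarith
  have hJ3 : (J ^ 2 + J * 10 ^ 8 + 2 * 10 ^ 8) + (J + 10 ^ 8) * 10 ^ 8 ≤
      (J + 2 * 10 ^ 8) ^ 2 := by nlinarith
  have hL4 : 1 ≤ L ^ 4 := hL2.trans hL24
  have hL20 : 0 ≤ L ^ 2 := by linarith
  have hk0 : 0 ≤ (J + 2 * 10 ^ 8) ^ 2 := sq_nonneg _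
  refine ⟨?_, ?_, ?_⟩
  · rw [abs_mul, abs_of_nonneg hE0]
    calc |a0| * E ≤ R * 1 := mul_le_mul h0 hE1 hE0 hR
      _ ≤ R * ((J + 2 * 10 ^ 8) ^ 2 * L ^ 4) :=
        mul_le_mul_of_nonneg_left (one_le_mul_of_one_le_of_one_le hJ1 hL4) hR
  · rw [abs_mul, abs_of_nonneg hE0]
    have hb : 0 ≤ R * ((J + 10 ^ 8) * L ^ 2) := (abs_nonneg _).trans h1
    calc |a1| * E ≤ R * ((J + 10 ^ 8) * L ^ 2) * 1 := mul_le_mul h1 hE1 hE0 hb
      _ = R * ((J + 10 ^ 8) * L ^ 2) := mul_one _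
      _ ≤ R * ((J + 2 * 10 ^ 8) ^ 2 * L ^ 4) :=
        mul_le_mul_of_nonneg_left (mul_le_mul hJ2 hL24 hL20 hk0) hR
  · refine (abs_add_le _ _).trans ?_
    rw [abs_mul, abs_mul a1, abs_mul E p1, abs_of_nonneg hE0]
    have hb : 0 ≤ R * ((J + 10 ^ 8) * L ^ 2) := (abs_nonneg _).trans h1
    have hb2 : 0 ≤ R * ((J ^ 2 + J * 10 ^ 8 + 2 * 10 ^ 8) * L ^ 2) := (abs_nonneg _).trans h2
    have h3 : |a2| * E ≤ R * ((J ^ 2 + J * 10 ^ 8 + 2 * 10 ^ 8) * L ^ 2) * 1 :=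
      mul_le_mul h2 hE1 hE0 hb2
    have h4 : |a1| * (E * |p1|) ≤ R * ((J + 10 ^ 8) * L ^ 2) * (1 * (10 ^ 8 * L ^ 2)) :=
      mul_le_mul h1 (mul_le_mul hE1 hp (abs_nonneg _) zero_le_one)
        (mul_nonneg hE0 (abs_nonneg _)) hb
    refine (add_le_add h3 h4).trans ?_
    have e2 : R * ((J ^ 2 + J * 10 ^ 8 + 2 * 10 ^ 8) * L ^ 2) * 1 +
        R * ((J + 10 ^ 8) * L ^ 2) * (1 * (10 ^ 8 * L ^ 2)) =
        R * ((J ^ 2 + J * 10 ^ 8 + 2 * 10 ^ 8) * L ^ 2 +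
          (J + 10 ^ 8) * 10 ^ 8 * L ^ 4) := by ring
    rw [e2]
    refine mul_le_mul_of_nonneg_left ?_ hR
    have h5 : (J ^ 2 + J * 10 ^ 8 + 2 * 10 ^ 8) * L ^ 2 ≤
        (J ^ 2 + J * 10 ^ 8 + 2 * 10 ^ 8) * L ^ 4 :=
      mul_le_mul_of_nonneg_left hL24 (by positivity)
    refine (add_le_add_left h5 _).trans ?_
    rw [← add_mul]
    exact mul_le_mul_of_nonneg_right hJ3 (by linarith)

/-- the constants -/
theorem bnds (j : ℕ) {T L u : ℝ} (hL : L = Real.log T) (hT : 1000 ≤ T)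
    (h1 : Real.log (T / 1000) ≤ u) (h2 : u ≤ Real.log (1000 * T)) :
    |gg j T u| ≤ ((2 : ℝ) ^ j * (j + 2 * 10 ^ 8) ^ 2) * L ^ (j + 4) ∧
    |g1 j T u| ≤ ((2 : ℝ) ^ j * (j + 2 * 10 ^ 8) ^ 2) * L ^ (j + 4) ∧
    |g2 j T u| ≤ ((2 : ℝ) ^ j * (j + 2 * 10 ^ 8) ^ 2) * L ^ (j + 4) := by
  have hT0 : 0 < T := by linarith
  have hL1 : 1 ≤ L := by
    rw [hL, ← Real.log_exp 1]
    exact Real.log_le_log (Real.exp_pos 1) (by linarith [Real.exp_one_lt_three])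
  have hL0 : 0 < L := by linarith
  have hk : Real.log 1000 ≤ L := by rw [hL]; exact Real.log_le_log (by norm_num) hT
  have hu0 : 0 ≤ u := by
    refine le_trans (Real.log_nonneg ?_) h1
    rw [le_div_iff₀ (by norm_num)]; linarith
  have hu1 : u ≤ 2 * L := by
    rw [Real.log_mul (by norm_num) hT0.ne', ← hL] at h2
    linarith
  have hpi := Real.pi_pos
  have hpi4 := Real.pi_lt_d2
  set w : ℝ := 2 * Real.pi * Real.exp u with hwdef
  have hw0 : 0 < w := by positivity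
  have hexp : Real.exp u ≤ 1000 * T := by
    have := Real.exp_le_exp.2 h2
    rwa [Real.exp_log (by positivity)] at this
  have hw1 : w ≤ 7000 * T := by
    have : 2 * Real.pi * Real.exp u ≤ 2 * Real.pi * (1000 * T) :=
      mul_le_mul_of_nonneg_left hexp (by positivity)
    nlinarith
  -- the width
  have hD : DD T ^ 2 = T ^ 2 / (L ^ (2 / 3 : ℝ)) ^ 2 := by
    unfold DD; rw [← hL, div_pow]
  have hq : L ^ (2 / 3 : ℝ) ≤ L := by
    calc L ^ (2 / 3 : ℝ) ≤ L ^ (1 : ℝ) := Real.rpow_le_rpow_of_exponent_le hL1 (by norm_num)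
      _ = L := Real.rpow_one L
  have hq0 : 0 < L ^ (2 / 3 : ℝ) := Real.rpow_pos_of_pos hL0 _
  have hq2 : (L ^ (2 / 3 : ℝ)) ^ 2 ≤ L ^ 2 := by gcongr
  have hD0 : 0 < DD T ^ 2 := by rw [hD]; positivity
  have hDT : T ^ 2 / DD T ^ 2 ≤ L ^ 2 := by
    rw [hD, div_div_eq_mul_div, mul_comm, mul_div_assoc, div_self (by positivity), mul_one]
    exact hq2
  have hP1 : |-2 * w * (w - T) / DD T ^ 2| ≤ 10 ^ 8 * L ^ 2 := by
    rw [abs_div, abs_of_pos hD0]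
    have h3 : |-2 * w * (w - T)| ≤ 10 ^ 8 * T ^ 2 := by
      rw [abs_mul, abs_mul, abs_of_pos hw0, abs_neg, abs_two]
      have h4 : |w - T| ≤ 7000 * T := by
        rw [abs_le]; constructor <;> linarith
      have h5 : 2 * w * |w - T| ≤ 2 * (7000 * T) * (7000 * T) := by gcongr
      nlinarith [sq_nonneg T]
    calc |-2 * w * (w - T)| / DD T ^ 2 ≤ 10 ^ 8 * T ^ 2 / DD T ^ 2 := by gcongr
      _ = 10 ^ 8 * (T ^ 2 / DD T ^ 2) := by ring
      _ ≤ 10 ^ 8 * L ^ 2 := by gcongr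
  have hP2 : |-2 * w * (2 * w - T) / DD T ^ 2| ≤ 2 * 10 ^ 8 * L ^ 2 := by
    rw [abs_div, abs_of_pos hD0]
    have h3 : |-2 * w * (2 * w - T)| ≤ 2 * 10 ^ 8 * T ^ 2 := by
      rw [abs_mul, abs_mul, abs_of_pos hw0, abs_neg, abs_two]
      have h4 : |2 * w - T| ≤ 14000 * T := by
        rw [abs_le]; constructor <;> linarith
      have h5 : 2 * w * |2 * w - T| ≤ 2 * (7000 * T) * (14000 * T) := by gcongr
      nlinarith [sq_nonneg T]
    calc |-2 * w * (2 * w - T)| / DD T ^ 2 ≤ 2 * 10 ^ 8 * T ^ 2 / DD T ^ 2 := by gcongr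
      _ = 2 * 10 ^ 8 * (T ^ 2 / DD T ^ 2) := by ring
      _ ≤ 2 * 10 ^ 8 * L ^ 2 := by gcongr
  have hE0 : 0 < Real.exp (-(w - T) ^ 2 / DD T ^ 2) := Real.exp_pos _
  have hE1 : Real.exp (-(w - T) ^ 2 / DD T ^ 2) ≤ 1 := by
    rw [Real.exp_le_one_iff]
    exact div_nonpos_of_nonpos_of_nonneg (by nlinarith [sq_nonneg (w - T)]) hD0.le
  have hpw : ∀ k : ℕ, k ≤ j → |u ^ k| ≤ (2 * L) ^ j := fun k hk => by
    rw [abs_of_nonneg (by positivity)]
    calc u ^ k ≤ (2 * L) ^ k := by gcongr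
      _ ≤ (2 * L) ^ j := pow_le_pow_right₀ (by linarith) hk
  have hp0 := hpw j le_rfl
  have hp1 := hpw (j - 1) (Nat.sub_le _ _)
  have hp2 := hpw (j - 1 - 1) (by omega)
  set E : ℝ := Real.exp (-(w - T) ^ 2 / DD T ^ 2) with hEdef
  set p1 : ℝ := -2 * w * (w - T) / DD T ^ 2 with hp1def
  set p2 : ℝ := -2 * w * (2 * w - T) / DD T ^ 2 with hp2def
  have hj : (0 : ℝ) ≤ j := Nat.cast_nonneg j
  have hj1 : ((j - 1 : ℕ) : ℝ) ≤ j := by exact_mod_cast Nat.sub_le _ _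
  have hL2 : (1 : ℝ) ≤ L ^ 2 := one_le_pow₀ hL1
  have hL4 : (1 : ℝ) ≤ L ^ 4 := one_le_pow₀ hL1
  have hL24 : L ^ 2 ≤ L ^ 4 := pow_le_pow_right₀ hL1 (by norm_num)
  have hR : ((2 : ℝ) ^ j * (j + 2 * 10 ^ 8) ^ 2) * L ^ (j + 4) =
      (2 * L) ^ j * ((j + 2 * 10 ^ 8) ^ 2 * L ^ 4) := by
    rw [mul_pow, pow_add]; ring
  have hlp : (0 : ℝ) ≤ (2 * L) ^ j := by positivity
  -- first factor
  have ha1 : |j * u ^ (j - 1) + u ^ j * p1| ≤ (2 * L) ^ j * ((j + 10 ^ 8) * L ^ 2) := by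
    calc |j * u ^ (j - 1) + u ^ j * p1| ≤ |j * u ^ (j - 1)| + |u ^ j * p1| := abs_add_le _ _
      _ = j * |u ^ (j - 1)| + |u ^ j| * |p1| := by rw [abs_mul, abs_mul, Nat.abs_cast]
      _ ≤ j * (2 * L) ^ j + (2 * L) ^ j * (10 ^ 8 * L ^ 2) := by gcongr
      _ = (2 * L) ^ j * (j * 1 + 10 ^ 8 * L ^ 2) := by ring
      _ ≤ (2 * L) ^ j * (j * L ^ 2 + 10 ^ 8 * L ^ 2) := by gcongr
      _ = _ := by ring
  have ha2 : |j * ((j - 1 : ℕ) * u ^ (j - 1 - 1)) + (j * u ^ (j - 1) * p1 + u ^ j * p2)| ≤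
      (2 * L) ^ j * ((j ^ 2 + j * 10 ^ 8 + 2 * 10 ^ 8) * L ^ 2) := by
    calc |j * ((j - 1 : ℕ) * u ^ (j - 1 - 1)) + (j * u ^ (j - 1) * p1 + u ^ j * p2)|
        ≤ |j * ((j - 1 : ℕ) * u ^ (j - 1 - 1))| + (|j * u ^ (j - 1) * p1| + |u ^ j * p2|) :=
          (abs_add_le _ _).trans (add_le_add_right (abs_add_le _ _) _)
      _ = j * (((j - 1 : ℕ) : ℝ) * |u ^ (j - 1 - 1)|) + (j * |u ^ (j - 1)| * |p1| +
          |u ^ j| * |p2|) := by
          rw [abs_mul, abs_mul, abs_mul, abs_mul, abs_mul, Nat.abs_cast, Nat.abs_cast]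
      _ ≤ j * (j * (2 * L) ^ j) + (j * (2 * L) ^ j * (10 ^ 8 * L ^ 2) +
          (2 * L) ^ j * (2 * 10 ^ 8 * L ^ 2)) := by gcongr
      _ = (2 * L) ^ j * (j ^ 2 * 1 + j * 10 ^ 8 * L ^ 2 + 2 * 10 ^ 8 * L ^ 2) := by ring
      _ ≤ (2 * L) ^ j * (j ^ 2 * L ^ 2 + j * 10 ^ 8 * L ^ 2 + 2 * 10 ^ 8 * L ^ 2) := by gcongr
      _ = _ := by ring
  have e1 : gg j T u = u ^ j * E := rfl
  have e2 : g1 j T u = (j * u ^ (j - 1) + u ^ j * p1) * E := rfl
  have e3 : g2 j T u = (j * ((j - 1 : ℕ) * u ^ (j - 1 - 1)) +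
        (j * u ^ (j - 1) * p1 + u ^ j * p2)) * E +
        (j * u ^ (j - 1) + u ^ j * p1) * (E * p1) := rfl
  rw [hR, e1, e2, e3]
  clear_value w E p1 p2
  exact bnds0 hj hlp hE0.le hE1 hL2 hL24 hp0 ha1 ha2 hP1

/-- `log (c (x + 1)) - log (c x) ≤ 1 / x` -/
theorem log_step {x : ℝ} (hx : 0 < x) : 0 ≤ Real.log (x + 1) - Real.log x ∧
    Real.log (x + 1) - Real.log x ≤ 1 / x := by
  constructor
  · linarith [Real.log_le_log hx (by linarith : x ≤ x + 1)]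
  · rw [← Real.log_div (by linarith) hx.ne']
    have h1 := Real.log_le_sub_one_of_pos (by positivity : 0 < (x + 1) / x)
    have h2 : (x + 1) / x - 1 = 1 / x := by field_simp; ring
    linarith

theorem wtd : WtdStatement := by
  intro j
  refine ⟨(2 : ℝ) ^ j * (j + 2 * 10 ^ 8) ^ 2, j + 4, by positivity, ?_⟩
  filter_upwards [eventually_ge_atTop 1000] with T hT
  have hT0 : 0 < T := by linarith
  set B : ℝ := ((2 : ℝ) ^ j * (j + 2 * 10 ^ 8) ^ 2) * Real.log T ^ (j + 4) with hB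
  have hbd : ∀ u ∈ Set.Icc (Real.log (T / 1000)) (Real.log (1000 * T)),
      |gg j T u| ≤ B ∧ |g1 j T u| ≤ B ∧ |g2 j T u| ≤ B := fun u hu =>
    bnds j rfl hT hu.1 hu.2
  have hmem : ∀ r : ℝ, T / 1000 ≤ r → r ≤ 1000 * T →
      Real.log r ∈ Set.Icc (Real.log (T / 1000)) (Real.log (1000 * T)) := fun r h1 h2 =>
    ⟨Real.log_le_log (by positivity) h1, Real.log_le_log (lt_of_lt_of_le (by positivity) h1) h2⟩
  have hB0 : 0 ≤ B := (abs_nonneg _).trans (hbd _ (hmem T (by linarith) (by linarith))).1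
  refine ⟨fun r h1 h2 => ?_, fun c x hc hx h1 h2 => ?_, fun c x z hc hx hz h1 h2 => ?_⟩
  · have hr : 0 < r := lt_of_lt_of_le (by positivity) h1
    rw [wt_exp j T hr]
    exact (hbd _ (hmem r h1 h2)).1
  · have hx0 : (0 : ℝ) < x := by exact_mod_cast hx
    have hcx : 0 < c * x := mul_pos hc hx0
    have hcx1 : c * x ≤ c * (x + 1) := mul_le_mul_of_nonneg_left (by linarith) hc.le
    rw [wt_exp j T hcx, wt_exp j T (lt_of_lt_of_le hcx hcx1)]
    refine (mvt1 (hg j T) (fun u hu => (hbd u hu).2.1) (hmem _ h1 (hcx1.trans h2))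
      (hmem _ (h1.trans hcx1) h2)).trans ?_
    rw [Real.log_mul hc.ne' (by positivity), Real.log_mul hc.ne' hx0.ne', add_sub_add_left_eq_sub,
      abs_of_nonneg (log_step hx0).1, div_eq_mul_one_div B]
    exact mul_le_mul_of_nonneg_left (log_step hx0).2 hB0
  · have hx0 : (0 : ℝ) < x := by exact_mod_cast hx
    have hz0 : (0 : ℝ) < z := by exact_mod_cast hz
    have hx1 : (0 : ℝ) < (x : ℝ) + 1 := by linarith
    have hz1 : (0 : ℝ) < (z : ℝ) + 1 := by linarith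
    have p1 : 0 < c * (x + 1) * (z + 1) := by positivity
    have p2 : 0 < c * (x + 1) * z := by positivity
    have p3 : 0 < c * x * (z + 1) := by positivity
    have p4 : 0 < c * x * z := by positivity
    rw [wt_exp j T p1, wt_exp j T p2, wt_exp j T p3, wt_exp j T p4]
    have hsx := log_step hx0
    have hsz := log_step hz0
    have e0 : Real.log (c * x * z) = Real.log c + Real.log x + Real.log z := by
      rw [Real.log_mul (by positivity) hz0.ne', Real.log_mul hc.ne' hx0.ne']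
    have e1 : Real.log (c * (x + 1) * (z + 1)) = Real.log (c * x * z) +
        (Real.log (x + 1) - Real.log x) + (Real.log (z + 1) - Real.log z) := by
      rw [e0, Real.log_mul (by positivity) hz1.ne', Real.log_mul hc.ne' hx1.ne']; ring
    have e2 : Real.log (c * (x + 1) * z) = Real.log (c * x * z) +
        (Real.log (x + 1) - Real.log x) := by
      rw [e0, Real.log_mul (by positivity) hz0.ne', Real.log_mul hc.ne' hx1.ne']; ring
    have e3 : Real.log (c * x * (z + 1)) = Real.log (c * x * z) +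
        (Real.log (z + 1) - Real.log z) := by
      rw [e0, Real.log_mul (by positivity) hz1.ne', Real.log_mul hc.ne' hx0.ne']; ring
    have hlast : Real.log (c * x * z) + (Real.log (x + 1) - Real.log x) +
        (Real.log (z + 1) - Real.log z) ≤ Real.log (1000 * T) := by
      rw [← e1]; exact Real.log_le_log p1 h2
    rw [e1, e2, e3]
    refine (mvt2 (hg j T) (hg' j T) (fun u hu => (hbd u hu).2.2)
      (Real.log_le_log (by positivity) h1) hsx.1 hsz.1 hlast).trans ?_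
    have h5 : (Real.log (x + 1) - Real.log x) * (Real.log (z + 1) - Real.log z) ≤
        1 / x * (1 / z) := mul_le_mul hsx.2 hsz.2 hsz.1 (by positivity)
    calc B * ((Real.log (x + 1) - Real.log x) * (Real.log (z + 1) - Real.log z)) ≤
        B * (1 / x * (1 / z)) := mul_le_mul_of_nonneg_left h5 hB0
      _ = B / (x * z) := by field_simp

end Pool.Agent.Lib.MP_6bc78b_nt.MS.P2.H18
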