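import Pool.Agent.Lib.MP_6bc78b_nt.MS.P2.Iface

/-! WTT: the weight away from `r = T`. -/

set_option autoImplicit false

open Finset Filter

namespace Pool.Agent.Lib.MP_6bc78b_nt.MS.P2.H18

theorem exp_bd (j N : ℕ) {l m X : ℝ} (hl : |l| ≤ m) (hX : ((j : ℝ) + N) * m ≤ X) :
    |l ^ j * Real.exp (-X)| ≤ 1 / Real.exp m ^ N := by
  have hm : 0 ≤ m := (abs_nonneg _).trans hl
  rw [abs_mul, abs_pow, abs_of_pos (Real.exp_pos _)]
  have h1 : |l| ^ j ≤ Real.exp m ^ j :=
    pow_le_pow_left₀ (abs_nonneg _) (hl.trans (by linarith [Real.add_one_le_exp m])) j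
  have h2 : Real.exp (-X) ≤ Real.exp (-(((j : ℝ) + N) * m)) := Real.exp_le_exp.2 (by linarith)
  calc |l| ^ j * Real.exp (-X) ≤ Real.exp m ^ j * Real.exp (-(((j : ℝ) + N) * m)) :=
        mul_le_mul h1 h2 (Real.exp_pos _).le (by positivity)
    _ = 1 / Real.exp m ^ N := by
        rw [← Real.exp_nat_mul, ← Real.exp_nat_mul, ← Real.exp_add, one_div, ← Real.exp_neg]
        congr 1
        ring

/-- the exponent of the weight -/
theorem expo {T : ℝ} (hT : 1000 ≤ T) (r : ℝ) :
    GG T r = Real.exp (-((2 * Real.pi * r - T) ^ 2 / T ^ 2 *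
      (Real.log T * Real.log T ^ (1 / 3 : ℝ)))) := by
  have hT0 : 0 < T := by linarith
  have hL1 : 1 ≤ Real.log T := by
    rw [← Real.log_exp 1]
    exact Real.log_le_log (Real.exp_pos 1) (by linarith [Real.exp_one_lt_three])
  have hL0 : 0 < Real.log T := by linarith
  have h1 : (Real.log T ^ (2 / 3 : ℝ)) ^ 2 = Real.log T * Real.log T ^ (1 / 3 : ℝ) := by
    rw [← Real.rpow_natCast, ← Real.rpow_mul hL0.le]
    nth_rewrite 2 [← Real.rpow_one (Real.log T)]
    rw [← Real.rpow_add hL0]
    norm_num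
  unfold GG DD
  rw [div_pow, h1]
  congr 1
  rw [div_div_eq_mul_div]
  ring

theorem wtt : WttStatement := by
  intro j N
  have hev : ∀ᶠ T : ℝ in atTop, (j + N : ℝ) ≤ 36 / 100 * Real.log T ^ (1 / 3 : ℝ) := by
    have h := (tendsto_rpow_atTop (by norm_num : (0 : ℝ) < 1 / 3)).comp Real.tendsto_log_atTop
    filter_upwards [h.eventually_ge_atTop ((j + N) * (100 / 36))] with T h
    have h' : ((j : ℝ) + N) * (100 / 36) ≤ Real.log T ^ (1 / 3 : ℝ) := h
    linarith
  filter_upwards [eventually_ge_atTop 1000, hev] with T hT hc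
  have hT0 : 0 < T := by linarith
  have hL1 : 1 ≤ Real.log T := by
    rw [← Real.log_exp 1]
    exact Real.log_le_log (Real.exp_pos 1) (by linarith [Real.exp_one_lt_three])
  set L := Real.log T with hL
  set q := L ^ (1 / 3 : ℝ) with hq
  have hq0 : 0 < q := Real.rpow_pos_of_pos (by linarith) _
  have hpi := Real.pi_gt_three
  have hpi4 := Real.pi_lt_d2
  refine ⟨fun r h1 h2 => ?_, fun r h1 => ?_⟩
  · have hr : 0 < r := lt_of_lt_of_le (by positivity) h1
    have hlr : |Real.log r| ≤ L := by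
      rw [abs_le]
      constructor
      · rw [hL, ← Real.log_inv]
        exact Real.log_le_log (by positivity) (by rw [← one_div]; exact h1)
      · exact Real.log_le_log hr (by linarith)
    have hX : ((j : ℝ) + N) * L ≤ (2 * Real.pi * r - T) ^ 2 / T ^ 2 * (L * q) := by
      have h3 : 36 / 100 ≤ (2 * Real.pi * r - T) ^ 2 / T ^ 2 := by
        rw [le_div_iff₀ (by positivity)]
        have h4 : 2 * Real.pi * r ≤ 4 / 10 * T := by
          have : 2 * Real.pi * r ≤ 2 * 3.15 * (T / 16) := by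
            apply mul_le_mul _ h2 hr.le (by norm_num)
            linarith
          linarith
        nlinarith
      calc ((j : ℝ) + N) * L ≤ 36 / 100 * q * L := mul_le_mul_of_nonneg_right hc (by linarith)
        _ = 36 / 100 * (L * q) := by ring
        _ ≤ _ := mul_le_mul_of_nonneg_right h3 (mul_nonneg (by linarith) hq0.le)
    have h5 := exp_bd j N hlr hX
    rw [hL, Real.exp_log hT0] at h5
    unfold wt
    rw [expo hT]
    exact h5
  · have hr : 0 < r := by linarith
    have hr1 : 1 ≤ r := by linarith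
    have hlr : |Real.log r| ≤ Real.log r := by rw [abs_of_nonneg (Real.log_nonneg hr1)]
    have hs : 0 < r / T := by positivity
    have hs2 : 1 / 2 ≤ r / T := by rw [le_div_iff₀ hT0]; linarith
    have hlog : Real.log r ≤ 6 * (r / T) ^ 2 * L := by
      have e : r = r / T * T := by field_simp
      have h6 : Real.log r = Real.log (r / T) + L := by
        conv_lhs => rw [e]
        rw [Real.log_mul hs.ne' hT0.ne']
      have h7 : Real.log (r / T) ≤ r / T := by linarith [Real.log_le_sub_one_of_pos hs]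
      have h8 : r / T ≤ 2 * (r / T) ^ 2 := by nlinarith
      have h9 : 1 ≤ 4 * (r / T) ^ 2 := by nlinarith
      have h10 : 0 ≤ (r / T) ^ 2 := sq_nonneg _
      have h11 : L ≤ 4 * (r / T) ^ 2 * L := by nlinarith
      have h12 : 2 * (r / T) ^ 2 ≤ 2 * (r / T) ^ 2 * L := by nlinarith
      linarith
    have hX : ((j : ℝ) + N) * Real.log r ≤ (2 * Real.pi * r - T) ^ 2 / T ^ 2 * (L * q) := by
      have h3 : 16 * (r / T) ^ 2 ≤ (2 * Real.pi * r - T) ^ 2 / T ^ 2 := by
        rw [le_div_iff₀ (by positivity), div_pow]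
        have h4 : 4 * r ≤ 2 * Real.pi * r - T := by nlinarith
        have h5 : 16 * (r ^ 2 / T ^ 2) * T ^ 2 = 16 * r ^ 2 := by field_simp
        rw [h5]
        nlinarith
      have hjN : (0 : ℝ) ≤ (j : ℝ) + N := by positivity
      calc ((j : ℝ) + N) * Real.log r ≤ ((j : ℝ) + N) * (6 * (r / T) ^ 2 * L) :=
            mul_le_mul_of_nonneg_left hlog hjN
        _ ≤ (36 / 100 * q) * (6 * (r / T) ^ 2 * L) := by
            apply mul_le_mul_of_nonneg_right hc; positivity
        _ ≤ 16 * (r / T) ^ 2 * (L * q) := by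
            have : 0 ≤ (r / T) ^ 2 * (L * q) := by positivity
            nlinarith
        _ ≤ _ := mul_le_mul_of_nonneg_right h3 (mul_nonneg (by linarith) hq0.le)
    have h5 := exp_bd j N hlr hX
    rw [Real.exp_log hr] at h5
    unfold wt
    rw [expo hT]
    exact h5

end Pool.Agent.Lib.MP_6bc78b_nt.MS.P2.H18
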