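import Pool.Agent.Lib.MP_6bc78b_nt.MS.P2.Iface

/-! WTV: total variation of the weight. -/

set_option autoImplicit false

open Finset Filter

namespace Pool.Agent.Lib.MP_6bc78b_nt.MS.P2.H18

theorem harm_le {N : ℕ} (hN : 1 ≤ N) :
    ∑ x ∈ Icc 1 N, 1 / (x : ℝ) ≤ 1 + Real.log N := by
  have h := harmonic_le_one_add_log N
  rw [harmonic_eq_sum_Icc] at h
  push_cast at h
  simpa only [one_div] using h

theorem wtv (h1 : WtdStatement) (h2 : WttStatement) : WtvStatement := by
  intro j
  obtain ⟨C, M, hC, hd⟩ := h1 j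
  refine ⟨4 * C + 1, M + 1, by positivity, ?_⟩
  filter_upwards [eventually_ge_atTop 1000, hd, h2 j 3] with T hT hd ht c hc N hN
  obtain ⟨d1, d2, -⟩ := hd
  obtain ⟨t1, t2⟩ := ht
  have hT0 : 0 < T := by linarith
  have hL1 : 1 ≤ Real.log T := by
    rw [← Real.log_exp 1]
    exact Real.log_le_log (Real.exp_pos 1) (by linarith [Real.exp_one_lt_three])
  set L := Real.log T with hL
  have hc0 : 0 < c := lt_of_lt_of_le (by positivity) hc
  have hLM : 1 ≤ L ^ M := one_le_pow₀ hL1
  have hLM1 : L ^ M ≤ L ^ (M + 1) := pow_le_pow_right₀ hL1 (Nat.le_succ M)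
  have hT3 : 1 ≤ T ^ 3 := one_le_pow₀ (by linarith)
  refine ⟨fun x hx => ?_, ?_⟩
  · have hx1 : (1 : ℝ) ≤ x := by exact_mod_cast hx
    have hr : 1 / T ≤ c * x := by nlinarith
    have hgoal : 1 ≤ (4 * C + 1) * L ^ (M + 1) :=
      one_le_mul_of_one_le_of_one_le (by linarith) (one_le_pow₀ hL1)
    rcases le_or_gt (c * x) (T / 16) with h | h
    · refine (t1 _ hr h).trans (le_trans ?_ hgoal)
      rw [div_le_one (by positivity)]; exact hT3
    rcases le_or_gt (T / 2) (c * x) with h' | h'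
    · refine (t2 _ h').trans (le_trans ?_ hgoal)
      rw [div_le_one (by positivity)]
      exact one_le_pow₀ (by linarith)
    · refine (d1 _ (by linarith) (by linarith)).trans ?_
      calc C * L ^ M ≤ C * L ^ (M + 1) := mul_le_mul_of_nonneg_left hLM1 hC.le
        _ ≤ (4 * C + 1) * L ^ (M + 1) :=
          mul_le_mul_of_nonneg_right (by linarith) (by positivity)
  · rcases Nat.eq_zero_or_pos N with hN0 | hN0
    · subst hN0
      simp only [show Icc 1 0 = (∅ : Finset ℕ) from rfl, sum_empty]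
      positivity
    have hterm : ∀ x ∈ Icc 1 N, |wt j T (c * (x + 1)) - wt j T (c * x)| ≤
        16 / T ^ 3 + C * L ^ M * (1 / x) := by
      intro x hx
      have hx' : 1 ≤ x := (mem_Icc.1 hx).1
      have hx1 : (1 : ℝ) ≤ x := by exact_mod_cast hx'
      have hr : 1 / T ≤ c * x := by nlinarith
      have hcx : c * x ≤ c * (x + 1) := mul_le_mul_of_nonneg_left (by linarith) hc0.le
      have hcx2 : c * (x + 1) ≤ 2 * (c * x) := by nlinarith
      have hp : 0 ≤ C * L ^ M * (1 / x) := by positivity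
      have hq : 0 ≤ 16 / T ^ 3 := by positivity
      rcases le_or_gt (c * (x + 1)) (T / 16) with h | h
      · have e1 := t1 _ hr (hcx.trans h)
        have e2 := t1 _ (hr.trans hcx) h
        have e3 : |wt j T (c * (x + 1)) - wt j T (c * x)| ≤ 1 / T ^ 3 + 1 / T ^ 3 :=
          (abs_sub _ _).trans (add_le_add e2 e1)
        have e4 : 1 / T ^ 3 + 1 / T ^ 3 ≤ 16 / T ^ 3 := by
          rw [← add_div]; gcongr; norm_num
        linarith
      rcases le_or_gt (T / 2) (c * x) with h' | h'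
      · have e1 := t2 _ h'
        have e2 := t2 _ (h'.trans hcx)
        have e5 : ∀ r : ℝ, T / 2 ≤ r → 1 / r ^ 3 ≤ 8 / T ^ 3 := fun r hr => by
          have h6 : (T / 2) ^ 3 ≤ r ^ 3 := pow_le_pow_left₀ (by positivity) hr 3
          calc 1 / r ^ 3 ≤ 1 / (T / 2) ^ 3 := one_div_le_one_div_of_le (by positivity) h6
            _ = 8 / T ^ 3 := by field_simp; norm_num
        have e3 : |wt j T (c * (x + 1)) - wt j T (c * x)| ≤ 8 / T ^ 3 + 8 / T ^ 3 :=
          (abs_sub _ _).trans (add_le_add (e2.trans (e5 _ (h'.trans hcx))) (e1.trans (e5 _ h')))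
        have e4 : 8 / T ^ 3 + 8 / T ^ 3 = 16 / T ^ 3 := by ring
        linarith
      · have e1 := d2 c x hc0 hx' (by linarith) (by linarith)
        have e2 : C * L ^ M / x = C * L ^ M * (1 / x) := by ring
        linarith
    have hN1 : (1 : ℝ) ≤ N := by exact_mod_cast hN0
    refine (sum_le_sum hterm).trans ?_
    rw [sum_add_distrib, ← mul_sum, sum_const, Nat.card_Icc, nsmul_eq_mul, Nat.add_sub_cancel]
    have f1 : (N : ℝ) * (16 / T ^ 3) ≤ 1 := by
      calc (N : ℝ) * (16 / T ^ 3) ≤ 2 * T ^ 2 * (16 / T ^ 3) := by gcongr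
        _ = 32 / T := by field_simp; norm_num
        _ ≤ 1 := by rw [div_le_one hT0]; linarith
    have f2 : ∑ x ∈ Icc 1 N, 1 / (x : ℝ) ≤ 4 * L := by
      refine (harm_le hN0).trans ?_
      have f3 : Real.log N ≤ Real.log 2 + 2 * L := by
        rw [hL, ← Real.log_rpow hT0, ← Real.log_mul (by norm_num) (by positivity)]
        refine Real.log_le_log (by linarith) ?_
        rw [show (2 : ℝ) = ((2 : ℕ) : ℝ) by norm_num, Real.rpow_natCast]
        exact_mod_cast hN
      have f4 := Real.log_two_lt_d9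
      linarith
    have f5 : C * L ^ M * ∑ x ∈ Icc 1 N, 1 / (x : ℝ) ≤ C * L ^ M * (4 * L) :=
      mul_le_mul_of_nonneg_left f2 (by positivity)
    have f6 : C * L ^ M * (4 * L) = 4 * C * L ^ (M + 1) := by ring
    have f7 : 1 ≤ L ^ (M + 1) := one_le_pow₀ hL1
    linarith

end Pool.Agent.Lib.MP_6bc78b_nt.MS.P2.H18
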